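import Mathlib

set_option autoImplicit false

namespace Pool.Agent.Results.MP_1c7d4c_an.NoA

open Polynomial

noncomputable def toP : List ℚ → ℝ[X]
  | [] => 0
  | a :: l => C (a : ℝ) + X * toP l

def addL : List ℚ → List ℚ → List ℚ
  | [], m => m
  | l, [] => l
  | a :: l, b :: m => (a + b) :: addL l m

def lin (a : ℚ) (l : List ℚ) : List ℚ := addL (0 :: l) (l.map (a * ·))

def shift (a : ℚ) : List ℚ → List ℚ
  | [] => []
  | c :: l => addL [c] (lin a (shift a l))

def leL : List ℚ → List ℚ → Bool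
  | [], [] => true
  | a :: l, b :: m => decide (a ≤ b) && leL l m
  | _, _ => false

def cover (P T : List ℚ) : ℚ → List ℚ → Bool
  | lo, [] => decide (1 ≤ lo)
  | lo, h :: t => leL (shift h ((shift (lo + h) P).map abs)) T && cover P T (lo + 2 * h) t

lemma toP_add : ∀ l m, toP (addL l m) = toP l + toP m
  | [], m => by simp [addL, toP]
  | a :: l, [] => by simp [addL, toP]
  | a :: l, b :: m => by simp only [addL, toP, toP_add l m, Rat.cast_add, C_add]; ring

lemma toP_mul (a : ℚ) : ∀ l : List ℚ, toP (l.map (a * ·)) = C (a : ℝ) * toP l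
  | [] => by simp [toP]
  | b :: l => by simp only [List.map, toP, toP_mul a l, Rat.cast_mul, C_mul]; ring

lemma toP_lin (a : ℚ) (l : List ℚ) : toP (lin a l) = (X + C (a : ℝ)) * toP l := by
  simp only [lin, toP_add, toP_mul, toP, Rat.cast_zero, C_0]; ring

lemma toP_shift (a : ℚ) : ∀ l, toP (shift a l) = taylor (a : ℝ) (toP l)
  | [] => by simp [shift, toP]
  | c :: l => by
    simp only [shift, toP_add, toP_lin, toP_shift a l, toP, map_add, taylor_mul, taylor_C, taylor_X,
      mul_zero, add_zero]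

lemma le_of : ∀ l m, leL l m = true → ∀ k, (toP l).coeff k ≤ (toP m).coeff k
  | [], [], _, _ => le_rfl
  | [], _ :: _, h, _ => by simp [leL] at h
  | _ :: _, [], h, _ => by simp [leL] at h
  | a :: l, b :: m, h, k => by
    simp only [leL, Bool.and_eq_true, decide_eq_true_eq] at h
    cases k with
    | zero => simpa [toP] using h.1
    | succ k => simpa [toP, coeff_X_mul, coeff_C_succ] using le_of l m h.2 k

lemma maj {t h : ℝ} (ht : |t| ≤ h) :
    ∀ (l : List ℚ) (k : ℕ), |(taylor t (toP l)).coeff k| ≤ (taylor h (toP (l.map abs))).coeff k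
  | [], k => by simp [toP]
  | c :: l, k => by
    have k1 : ∀ j, |t * (taylor t (toP l)).coeff j| ≤ h * (taylor h (toP (l.map abs))).coeff j :=
      fun j => by
        rw [abs_mul]; exact mul_le_mul ht (maj ht l j) (abs_nonneg _) ((abs_nonneg _).trans ht)
    simp only [List.map, toP, map_add, taylor_mul, taylor_C, taylor_X, add_mul, coeff_add,
      coeff_C_mul]
    cases k with
    | zero =>
      simp only [coeff_C_zero, mul_coeff_zero, coeff_X_zero, zero_mul, zero_add, Rat.cast_abs]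
      exact (abs_add_le _ _).trans (add_le_add le_rfl (k1 0))
    | succ k =>
      simp only [coeff_C_succ, coeff_X_mul, zero_add]
      exact (abs_add_le _ _).trans (add_le_add (maj ht l k) (k1 _))

lemma cov (P T : List ℚ) : ∀ (hs : List ℚ) (lo : ℚ), cover P T lo hs = true → ∀ x : ℝ,
    (lo : ℝ) ≤ x → x < 1 → ∀ k, |(taylor x (toP P)).coeff k| ≤ (toP T).coeff k
  | [], lo, h, x, h1, h2, _ => by
    have : (1 : ℝ) ≤ lo := by exact_mod_cast of_decide_eq_true h
    linarith
  | h :: t, lo, hc, x, h1, h2, k => by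
    simp only [cover, Bool.and_eq_true] at hc
    by_cases c : x ≤ lo + 2 * h
    · have := maj (t := x - (lo + h)) (h := h) (abs_le.2 ⟨by linarith, by linarith⟩)
        (shift (lo + h) P) k
      rw [toP_shift, taylor_taylor, ← toP_shift] at this
      refine le_trans (le_of_eq ?_) (this.trans (le_of _ _ hc.1 k))
      congr 3; push_cast; ring_nf
    · exact cov P T t _ hc.2 x (by push_cast; linarith) h2 k

def R : List ℚ := ([-7973, -7963, -7953, -7943, -7933, -7923, -7913, -7903, -7893, -7883, -7873,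
  -7863, -7853, -7843, -7833, -7823, -2277, -734, 734, 2277, 7823, 7833, 7843, 7853, 7863, 7873,
  7883, 7893, 7903, 7913, 7923, 7933, 7943, 7953, 7963, 7973] : List ℚ).map (· / 10000)

def H : List ℚ := ([1460, 800, 800, 250, 130, 100, 160, 400, 100, 80, 80, 130, 300, 130, 80,
  80, 130, 300, 130, 80, 80, 100, 400, 160, 100, 130, 250, 800, 800, 1460] : List ℚ).map (· / 10000)

def prodL : List ℚ → List ℚ
  | [] => [1]
  | r :: l => lin (-r) (prodL l)

lemma toP_prod : ∀ l, toP (prodL l) = (l.map fun r : ℚ => X - C (r : ℝ)).prod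
  | [] => by simp [prodL, toP]
  | r :: l => by simp [prodL, toP_lin, toP_prod l, sub_eq_add_neg]

lemma check : cover (prodL R) (shift 1 (prodL R)) (-1) H = true := by decide +kernel

def xq (j : Fin 36) : ℚ := R.getD j 0

theorem result : ∃ (n : ℕ) (x : Fin n → ℝ) (Q : ℝ[X]), 1 ≤ n ∧ Q = ∏ j, (X - C (x j)) ∧
    StrictMono x ∧ (∀ j, -1 ≤ x j ∧ x j ≤ 1) ∧ (∀ j, x j = -x j.rev) ∧
    (∀ k ≤ n, ∀ t : ℝ, -1 < t → t < 1 →
      |(derivative^[k] Q).eval t| ≤ (derivative^[k] Q).eval 1) ∧
    ∃ a y : ℝ, -1 ≤ a ∧ a ≤ 1 ∧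
      ‖aeval (1 + y * Complex.I) Q‖ < ‖aeval (a + y * Complex.I) Q‖ := by
  have h1 : ∀ i j : Fin 36, i < j → xq i < xq j := by decide +kernel
  have h2 : ∀ j, -1 ≤ xq j ∧ xq j ≤ 1 ∧ xq j = -xq j.rev := by decide +kernel
  have h3 : ∏ j, ((1 - xq j) ^ 2 + (1 / 20) ^ 2) < ∏ j, ((0 - xq j) ^ 2 + (1 / 20) ^ 2) := by
    decide +kernel
  have h4 : List.ofFn xq = R := by decide +kernel
  refine ⟨36, fun j => xq j, _, by norm_num, rfl, fun i j h => Rat.cast_lt.2 (h1 i j h),
    fun j => ⟨by beta_reduce; exact_mod_cast (h2 j).1, by beta_reduce; exact_mod_cast (h2 j).2.1⟩,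
    fun j => by beta_reduce; exact_mod_cast (h2 j).2.2, fun k _ t t1 t2 => ?_, 0, 1 / 20, by norm_num,
    by norm_num, ?_⟩
  · have e : ∏ j, (X - C (xq j : ℝ)) = toP (prodL R) := by
      rw [toP_prod, ← h4, List.map_ofFn, List.prod_ofFn]; rfl
    have := cov _ _ _ _ check t (by push_cast; linarith) t2 k
    rw [toP_shift, taylor_coeff, taylor_coeff, Rat.cast_one] at this
    rw [e, ← factorial_smul_hasseDeriv]
    rw [LinearMap.smul_apply, eval_smul, eval_smul, nsmul_eq_mul, nsmul_eq_mul, abs_mul,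
      Nat.abs_cast]
    exact mul_le_mul_of_nonneg_left this (Nat.cast_nonneg _)
  · have k : ∀ a : ℝ, ‖aeval ((a : ℂ) + (1 / 20 : ℝ) * Complex.I) (∏ j, (X - C (xq j : ℝ)))‖ ^ 2 =
        ∏ j, ((a - xq j) ^ 2 + (1 / 20) ^ 2) := by
      intro a
      rw [map_prod, norm_prod, ← Finset.prod_pow]
      refine Finset.prod_congr rfl fun j _ => ?_
      rw [← Complex.normSq_add_mul_I, Complex.normSq_eq_norm_sq]
      congr 2
      simp; ring
    refine lt_of_pow_lt_pow_left₀ 2 (norm_nonneg _) ?_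
    have a := k 1
    rw [Complex.ofReal_one] at a
    rw [a, k 0]
    have := (Rat.cast_lt (K := ℝ)).2 h3
    push_cast at this
    exact this

end Pool.Agent.Results.MP_1c7d4c_an.NoA
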